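import Mathlib

/-!
A symmetric complex matrix all of whose minors of size larger than `d` vanish is the Gram matrix of
vectors of `ℂ^d` (for the bilinear form). `exists_minor_ne_zero` and `exists_minor` are from the
earlier run's library (seeded_ab47071d, TH453).
-/

set_option autoImplicit false

open Module

namespace Pool.Agent.KS6_73.RG

section minors

variable {K : Type*} [Field K]

theorem exists_minor_ne_zero {ι : Type*} [Fintype ι] {ω : ℕ} (z : Fin ω → ι → K)
    (hz : LinearIndependent K z) :
    ∃ g : Fin ω → ι, (Matrix.of fun i l => z i (g l)).det ≠ 0 := by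
  classical
  let Z : Matrix (Fin ω) ι K := Matrix.of z
  have hrank : Z.rank = ω := by
    have := LinearIndependent.rank_matrix (M := Z) hz
    simpa using this
  have hspan := Submodule.exists_fun_fin_finrank_span_eq K (Set.range Z.col)
  have hfr : finrank K (Submodule.span K (Set.range Z.col)) = ω := by
    rw [← Matrix.rank_eq_finrank_span_cols, hrank]
  obtain ⟨f, hf, -, hli⟩ := hspan
  have hf' : ∀ i, ∃ j, Z.col j = f i := fun i => hf i
  choose j hj using hf'
  refine ⟨fun l => j (Fin.cast hfr.symm l), ?_⟩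
  have hli2 : LinearIndependent K (fun l : Fin ω => f (Fin.cast hfr.symm l)) :=
    hli.comp _ (Fin.cast_injective _)
  have hM : (fun l : Fin ω => f (Fin.cast hfr.symm l)) =
      (Matrix.of fun i l => z i (j (Fin.cast hfr.symm l))).transpose.row := by
    funext l
    rw [← hj]
    rfl
  rw [hM, Matrix.linearIndependent_rows_iff_isUnit, Matrix.isUnit_transpose,
    Matrix.isUnit_iff_isUnit_det] at hli2
  exact hli2.ne_zero

/-- a nonvanishing minor of maximal size -/
theorem exists_minor {ι κ : Type*} [Finite ι] [Fintype κ] (M : Matrix ι κ K) :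
    ∃ (s : Fin M.rank → ι) (c : Fin M.rank → κ), (M.submatrix s c).det ≠ 0 := by
  classical
  have hfr : Module.finrank K (Submodule.span K (Set.range M.row)) = M.rank :=
    (Matrix.rank_eq_finrank_span_row M).symm
  obtain ⟨f, hf, -, hli⟩ := Submodule.exists_fun_fin_finrank_span_eq K (Set.range M.row)
  have hf' : ∀ i, ∃ j, M.row j = f i := fun i => hf i
  choose j hj using hf'
  have hli2 : LinearIndependent K (fun l : Fin M.rank => M (j (Fin.cast hfr.symm l))) := by
    have h1 := hli.comp (Fin.cast hfr.symm) (Fin.cast_injective _)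
    have h2 : (f ∘ Fin.cast hfr.symm) = fun l : Fin M.rank => M (j (Fin.cast hfr.symm l)) := by
      funext l
      exact (hj (Fin.cast hfr.symm l)).symm
    rw [h2] at h1
    exact h1
  obtain ⟨g, hg⟩ := exists_minor_ne_zero _ hli2
  exact ⟨fun l => j (Fin.cast hfr.symm l), g, hg⟩

end minors

/-- a product of an `m × d` and a `d × m` matrix, `d < m`, has determinant `0` -/
lemma det_mul_thin {R : Type*} [CommRing R] {m d : ℕ} (h : d < m) (A : Matrix (Fin m) (Fin d) R)
    (B : Matrix (Fin d) (Fin m) R) : (A * B).det = 0 := by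
  let A' : Matrix (Fin m) (Fin m) R := Matrix.of fun i j =>
    if hj : (j : ℕ) < d then A i ⟨j, hj⟩ else 0
  let B' : Matrix (Fin m) (Fin m) R := Matrix.of fun i j =>
    if hi : (i : ℕ) < d then B ⟨i, hi⟩ j else 0
  have h1 : A * B = A' * B' := by
    ext i j
    rw [Matrix.mul_apply, Matrix.mul_apply]
    refine Fintype.sum_of_injective (Fin.castLE h.le) (Fin.castLE_injective h.le) _ _
      (fun k hk => ?_) fun k => ?_
    · have : ¬ (k : ℕ) < d := fun hk' => hk ⟨⟨k, hk'⟩, by ext; simp⟩
      simp [A', this]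
    · simp [A', B']
  rw [h1, Matrix.det_mul, Matrix.det_eq_zero_of_column_eq_zero (⟨d, h⟩ : Fin m), zero_mul]
  intro i
  simp [A']

variable {V : Type} [Fintype V] [DecidableEq V]

lemma expand (g : Matrix V V ℂ) {n : ℕ} (b : Basis (Fin n) ℂ (V → ℂ))
    (hort : ∀ i j, i ≠ j → Matrix.toBilin' g (b i) (b j) = 0) (u v : V) :
    g u v = ∑ i, Matrix.toBilin' g (b i) (b i) *
      (b.repr (Pi.single u 1) i * b.repr (Pi.single v 1) i) := by
  have h1 : g u v = Matrix.toBilin' g (Pi.single u 1) (Pi.single v 1) := by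
    rw [Matrix.toBilin'_single]
  rw [h1]
  conv_lhs => rw [← b.sum_repr (Pi.single u 1), ← b.sum_repr (Pi.single v 1)]
  rw [LinearMap.BilinForm.sum_left]
  refine Finset.sum_congr rfl fun i _ => ?_
  rw [LinearMap.BilinForm.sum_right, Finset.sum_eq_single i]
  · rw [LinearMap.BilinForm.smul_left, LinearMap.BilinForm.smul_right]
    ring
  · intro j _ hj
    rw [LinearMap.BilinForm.smul_left, LinearMap.BilinForm.smul_right, hort i j hj.symm]
    ring
  · intro h
    exact absurd (Finset.mem_univ _) h

lemma card_le (g : Matrix V V ℂ) {n : ℕ} (b : Basis (Fin n) ℂ (V → ℂ))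
    (hort : ∀ i j, i ≠ j → Matrix.toBilin' g (b i) (b j) = 0) :
    Fintype.card {i : Fin n // Matrix.toBilin' g (b i) (b i) ≠ 0} ≤ g.rank := by
  classical
  have hli : LinearIndependent ℂ (fun i : {i : Fin n // Matrix.toBilin' g (b i) (b i) ≠ 0} =>
      (⟨g.mulVecLin (b i.1), ⟨_, rfl⟩⟩ : LinearMap.range g.mulVecLin)) := by
    rw [Fintype.linearIndependent_iff]
    intro a ha j
    have h1 := congrArg Subtype.val ha
    rw [AddSubmonoidClass.coe_finsetSum] at h1
    simp only [Submodule.coe_smul, Submodule.coe_zero, Matrix.mulVecLin_apply] at h1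
    have h2 := congrArg (fun w => (b j.1) ⬝ᵥ w) h1
    simp only [dotProduct_sum, dotProduct_smul, dotProduct_zero, smul_eq_mul] at h2
    rw [Finset.sum_eq_single j] at h2
    · have h3 : b j.1 ⬝ᵥ g.mulVec (b j.1) = Matrix.toBilin' g (b j.1) (b j.1) := by
        rw [Matrix.toBilin'_apply']
      rw [h3] at h2
      exact (mul_eq_zero.1 h2).resolve_right j.2
    · intro i _ hij
      have h3 : b j.1 ⬝ᵥ g.mulVec (b i.1) = Matrix.toBilin' g (b j.1) (b i.1) := by
        rw [Matrix.toBilin'_apply']
      rw [h3, hort _ _ (fun h => hij (Subtype.ext h).symm), mul_zero]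
    · intro h
      exact absurd (Finset.mem_univ _) h
  exact hli.fintype_card_le_finrank

lemma gram_of_basis (g : Matrix V V ℂ) (d n : ℕ) (hd : g.rank ≤ d)
    (b : Basis (Fin n) ℂ (V → ℂ))
    (hort : ∀ i j, i ≠ j → Matrix.toBilin' g (b i) (b j) = 0) :
    ∃ x : V → Fin d → ℂ, ∀ u v, g u v = ∑ k, x u k * x v k := by
  classical
  have hexp := expand g b hort
  have hcard := (card_le g b hort).trans hd
  generalize hlam : (fun i => Matrix.toBilin' g (b i) (b i)) = lam at hexp hcard
  have hl : ∀ i, Matrix.toBilin' g (b i) (b i) = lam i := fun i => congrFun hlam i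
  simp only [hl] at hexp hcard
  obtain ⟨e⟩ : Nonempty ({i : Fin n // lam i ≠ 0} ↪ Fin d) := by
    apply Function.Embedding.nonempty_of_card_le
    rwa [Fintype.card_fin]
  choose s hsq using fun i : {i : Fin n // lam i ≠ 0} =>
    IsAlgClosed.exists_pow_nat_eq (lam i.1) two_pos
  generalize hc : (fun u i => b.repr (Pi.single u 1) i) = c at hexp
  have hcc : ∀ u i, b.repr (Pi.single u 1) i = c u i := fun u i => congrFun (congrFun hc u) i
  simp only [hcc] at hexp
  let x : V → Fin d → ℂ := fun u k =>
    if h : ∃ i, e i = k then s h.choose * c u h.choose.1 else 0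
  have hx : ∀ u (i : {i : Fin n // lam i ≠ 0}), x u (e i) = s i * c u i.1 := by
    intro u i
    have h : ∃ j, e j = e i := ⟨i, rfl⟩
    have h2 : h.choose = i := e.injective h.choose_spec
    simp only [x]
    rw [dif_pos h, h2]
  refine ⟨x, fun u v => ?_⟩
  rw [hexp]
  have h1 : ∑ i, lam i * (c u i * c v i) =
      ∑ i : {i : Fin n // lam i ≠ 0}, x u (e i) * x v (e i) := by
    symm
    refine Fintype.sum_of_injective (Subtype.val : {i : Fin n // lam i ≠ 0} → Fin n)
      Subtype.val_injective _ _ (fun i hi => ?_) fun i => ?_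
    · have : lam i = 0 := by
        by_contra h
        exact hi ⟨⟨i, h⟩, rfl⟩
      rw [this, zero_mul]
    · rw [hx, hx, ← hsq i]
      ring
  rw [h1]
  refine Fintype.sum_of_injective e e.injective _ _ (fun k hk => ?_) fun i => rfl
  have : ¬ ∃ i, e i = k := hk
  simp only [x]
  rw [dif_neg this, zero_mul]

lemma gram_of_rank (g : Matrix V V ℂ) (hs : g.IsSymm) (d : ℕ) (hd : g.rank ≤ d) :
    ∃ x : V → Fin d → ℂ, ∀ u v, g u v = ∑ k, x u k * x v k := by
  have hB : LinearMap.IsSymm (Matrix.toBilin' g) := by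
    refine ⟨fun x y => ?_⟩
    rw [RingHom.id_apply, Matrix.toBilin'_apply', Matrix.toBilin'_apply',
      Matrix.dotProduct_mulVec, ← Matrix.mulVec_transpose, hs.eq, dotProduct_comm]
  obtain ⟨b, hb⟩ := LinearMap.BilinForm.exists_orthogonal_basis hB
  exact gram_of_basis g d _ hd b fun i j hij => hb hij

end Pool.Agent.KS6_73.RG
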