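import Pool.Agent.KS6_73.RG.Gram
import Pool.Graph.R_pool_sql_team_39128cda.H.MP_52d521_co.C

/-!
Equivalent realisations in dimension `d`. This follows the earlier run's proof for the plane (library
module R_pool_sql_team_39128cda.H.MP_52d521_co.C, whose algebraic core `core`, `chain` and
`indep_of` is imported); Laman's theorem is replaced by the absence of self-stresses at the generic
realisation, and the explicit Gram decomposition by a general one.
-/

set_option autoImplicit false

open Finset MvPolynomial
open Pool.Agent.H.MP_52d521_co (core chain indep_of)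

namespace Pool.Agent.KS6_73.RG

variable {V : Type} (d : ℕ)

/-- squared distance polynomial -/
noncomputable def D (u v : V) : MvPolynomial (V × Fin d) ℚ := ∑ k : Fin d, (X (u, k) - X (v, k)) ^ 2

lemma D_symm (u v : V) : D d u v = D d v u := Finset.sum_congr rfl fun k _ => by ring

/-- squared distance polynomial of an unordered pair -/
noncomputable def Dl : Sym2 V → MvPolynomial (V × Fin d) ℚ := Sym2.lift ⟨D d, D_symm d⟩

lemma pd_D [DecidableEq V] (x y u : V) (k : Fin d) : pderiv (u, k) (D d x y) =
    ((if x = u then 1 else 0) - (if y = u then 1 else 0)) * (2 * (X (x, k) - X (y, k))) := by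
  unfold D
  rw [map_sum, Finset.sum_eq_single k]
  · simp [Derivation.leibniz_pow, pderiv_X, Pi.single_apply]
    split_ifs <;> ring
  · intro l _ hl
    have h1 : ∀ z : V, pderiv (u, k) (X (z, l) : MvPolynomial (V × Fin d) ℚ) = 0 := by
      intro z
      rw [pderiv_X_of_ne]
      intro h
      exact hl (congrArg Prod.snd h)
    rw [Derivation.leibniz_pow, map_sub, h1, h1]
    simp
  · intro h
    exact absurd (Finset.mem_univ _) h

variable {d}

/-- the only self-stress of `G` at `p` is `0` -/
def NoStress [Fintype V] (G : SimpleGraph V) (p : V → Fin d → ℂ) : Prop :=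
  ∀ ω : V → V → ℂ, (∀ u w, ω u w = ω w u) → (∀ u w, ¬ G.Adj u w → ω u w = 0) →
    (∀ u k, ∑ w, ω u w * (p u k - p w k) = 0) → ∀ u w, ω u w = 0

theorem indep [Fintype V] (G : SimpleGraph V) (p : V → Fin d → ℂ)
    (hp : AlgebraicIndependent ℚ (fun x : V × Fin d => p x.1 x.2)) (hG : NoStress G p) :
    Function.Injective (aeval (R := ℚ) fun e : G.edgeSet => Dl d e.1) := by
  classical
  apply indep_of
  intro P hP e0
  let c : Sym2 V → MvPolynomial (V × Fin d) ℚ := fun e =>
    if h : e ∈ G.edgeSet then aeval (fun e : G.edgeSet => Dl d e.1) (pderiv ⟨e, h⟩ P) else 0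
  have hc : ∀ e : G.edgeSet, c e = aeval (fun e : G.edgeSet => Dl d e.1) (pderiv e P) :=
    fun e => dif_pos e.2
  have h1 : ∀ u k, ∑ w, c s(u, w) * (X (u, k) - X (w, k)) = 0 := by
    intro u k
    have a1 := chain (fun e : G.edgeSet => Dl d e.1) (u, k) P
    rw [hP, map_zero] at a1
    simp only [← hc] at a1
    rw [← Finset.sum_subtype (univ.filter fun e => e ∈ G.edgeSet) (p := fun e => e ∈ G.edgeSet)
      (by simp) (fun e => c e * pderiv (u, k) (Dl d e)),
      Finset.sum_subset (Finset.filter_subset _ _) (fun e _ he => by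
        have : c e = 0 := dif_neg (by simpa using he)
        rw [this, zero_mul]),
      ← Finset.sum_of_injOn (s := univ) (f := fun w => 2 * (c s(u, w) * (X (u, k) - X (w, k))))
        (fun w => s(u, w)) (fun a _ b _ h => Sym2.congr_right.1 h) (fun _ _ => by simp)
        (fun e _ he => by
          induction e using Sym2.ind with
          | _ x y =>
            have hx : x ≠ u := by rintro rfl; exact he ⟨y, by simp, rfl⟩
            have hy : y ≠ u := by rintro rfl; exact he ⟨x, by simp, Sym2.eq_swap⟩
            simp [Dl, pd_D, hx, hy])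
        (fun w _ => by
          by_cases hw : w = u
          · subst hw; simp [Dl, pd_D]
          · simp only [Dl, Sym2.lift_mk, pd_D, if_true, hw, if_false]; ring),
      ← Finset.mul_sum] at a1
    exact (mul_eq_zero.1 a1.symm).resolve_left two_ne_zero
  rw [← hc]
  have h2 := hG (fun u w => aeval (fun x : V × Fin d => p x.1 x.2) (c s(u, w)))
    (fun u w => by rw [Sym2.eq_swap])
    (fun u w h => by
      have : c s(u, w) = 0 := dif_neg h
      rw [this, map_zero])
    (fun u k => by simpa using congrArg (aeval fun x : V × Fin d => p x.1 x.2) (h1 u k))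
  obtain ⟨e0, he0⟩ := e0
  induction e0 using Sym2.ind with
  | _ x y =>
    have h3 : aeval (R := ℚ) (fun x : V × Fin d => p x.1 x.2) (c s(x, y)) =
        aeval (R := ℚ) (fun x : V × Fin d => p x.1 x.2) 0 := by
      rw [map_zero]
      exact h2 x y
    exact hp h3

variable (d) in
/-- the coordinate ring of the Cayley-Menger variety -/
noncomputable abbrev Bs (V : Type) : Subalgebra ℚ (MvPolynomial (V × Fin d) ℚ) :=
  Algebra.adjoin ℚ (Set.range fun x : V × V => D d x.1 x.2)

variable (d) in
/-- squared distance as an element of the coordinate ring -/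
noncomputable def dd (u v : V) : Bs d V := ⟨D d u v, Algebra.subset_adjoin ⟨(u, v), rfl⟩⟩

lemma hom_ext {φ ψ : Bs d V →+* ℂ} (h : ∀ u v, φ (dd d u v) = ψ (dd d u v)) : φ = ψ := by
  have : φ.toRatAlgHom = ψ.toRatAlgHom := AlgHom.ext_of_eq_adjoin rfl (by
    rintro _ ⟨x, rfl⟩
    exact h x.1 x.2)
  exact RingHom.ext fun x => AlgHom.congr_fun this x

/-- evaluation at a realisation -/
noncomputable def ev (r : V → Fin d → ℂ) : Bs d V →+* ℂ :=
  ((aeval fun x : V × Fin d => r x.1 x.2).comp (Bs d V).val).toRingHom

lemma ev_dd (r : V → Fin d → ℂ) (u v : V) :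
    ev r (dd d u v) = ∑ k : Fin d, (r u k - r v k) ^ 2 := by
  simp [ev, dd, D]

lemma real [Fintype V] (φ : Bs d V →+* ℂ) : ∃ r, φ = ev r := by
  classical
  rcases isEmpty_or_nonempty V with hV | ⟨⟨o⟩⟩
  · exact ⟨fun _ _ => 0, hom_ext fun u => hV.elim u⟩
  let Gb : Matrix V V (Bs d V) := Matrix.of fun u v => dd d o u + dd d o v - dd d u v
  have hd : ∀ u v : V, dd d u v = dd d v u := fun u v => Subtype.ext (D_symm d u v)
  let Y : Matrix (Fin d) V (MvPolynomial (V × Fin d) ℚ) :=
    Matrix.of fun k u => X (u, k) - X (o, k)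
  have hv : ∀ u v, (Gb u v : MvPolynomial (V × Fin d) ℚ) =
      ∑ k : Fin d, (2 * Y k u) * Y k v := by
    intro u v
    simp only [Gb, Y, Matrix.of_apply, dd, D, AddMemClass.mk_add_mk, AddSubgroupClass.coe_sub,
      ← Finset.sum_add_distrib, ← Finset.sum_sub_distrib]
    exact Finset.sum_congr rfl fun k _ => by ring
  let g : Matrix V V ℂ := Matrix.of fun u v => φ (Gb u v) / 2
  have hrank : g.rank ≤ d := by
    by_contra hcon
    push Not at hcon
    obtain ⟨s, c, hsc⟩ := exists_minor g
    apply hsc
    have h1 : (Gb.submatrix s c).det = 0 := by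
      apply Subtype.ext
      have h2 : ((Gb.submatrix s c).det : MvPolynomial (V × Fin d) ℚ) =
          ((Gb.submatrix s c).map (Bs d V).val).det := by
        rw [← AlgHom.coe_toRingHom, ← RingHom.mapMatrix_apply, ← RingHom.map_det]
        rfl
      rw [h2]
      have h3 : (Gb.submatrix s c).map (Bs d V).val =
          (Matrix.of fun (i : Fin g.rank) (k : Fin d) => 2 * Y k (s i)) *
          (Matrix.of fun (k : Fin d) (j : Fin g.rank) => Y k (c j)) := by
        ext1 i j
        rw [Matrix.mul_apply]
        exact hv (s i) (c j)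
      rw [h3, det_mul_thin hcon]
      rfl
    have h4 : g.submatrix s c = (2 : ℂ)⁻¹ • (Gb.submatrix s c).map φ := by
      ext i j
      simp only [g, Matrix.submatrix_apply, Matrix.of_apply, Matrix.smul_apply, Matrix.map_apply,
        smul_eq_mul]
      ring
    rw [h4, Matrix.det_smul, ← RingHom.mapMatrix_apply, ← RingHom.map_det, h1, map_zero, mul_zero]
  obtain ⟨x, h⟩ := gram_of_rank g (by
    ext u v
    simp only [g, Gb, Matrix.transpose_apply, Matrix.of_apply, hd u v, add_comm]) d hrank
  refine ⟨x, hom_ext fun u v => ?_⟩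
  have z : ∀ u : V, dd d u u = 0 := fun u => Subtype.ext (by simp [dd, D])
  have h1 := h u u
  have h2 := h v v
  have h3 := h u v
  simp only [g, Gb, Matrix.of_apply, z, map_add, map_sub, map_zero] at h1 h2 h3
  rw [ev_dd]
  have h5 : ∑ k, (x u k - x v k) ^ 2 =
      ∑ k, x u k * x u k + ∑ k, x v k * x v k - 2 * ∑ k, x u k * x v k := by
    rw [Finset.mul_sum, ← Finset.sum_add_distrib, ← Finset.sum_sub_distrib]
    exact Finset.sum_congr rfl fun k _ => by ring
  rw [h5]
  linear_combination h1 + h2 - 2 * h3

/-- edge lengths -/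
noncomputable def de (G : SimpleGraph V) (e : G.edgeSet) : Bs d V :=
  ⟨Dl d e.1, by
    obtain ⟨e, he⟩ := e
    induction e using Sym2.ind with
    | _ x y => exact (dd d x y).2⟩

/-- squared length of the pair `u v` in the realisation `r` -/
def len (r : V → Fin d → ℂ) (u v : V) : ℂ := ∑ k : Fin d, (r u k - r v k) ^ 2

/-- the congruence classes of the realisations of `G` equivalent to `q` -/
def cls (G : SimpleGraph V) (q : V → Fin d → ℂ) : Set (Set (V → Fin d → ℂ)) :=
  {K | ∃ r : V → Fin d → ℂ, (∀ u v, G.Adj u v → len r u v = len q u v) ∧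
    K = {s | ∀ u v, len s u v = len r u v}}

lemma classes [Fintype V] (G : SimpleGraph V) (q : V → Fin d → ℂ) : (cls G q).encard =
    {φ : Bs d V →+* ℂ | φ.comp (aeval (R := ℚ) (de G)).toRingHom =
      (ev q).comp (aeval (R := ℚ) (de G)).toRingHom}.encard := by
  have hinj : Function.Injective fun φ : Bs d V →+* ℂ =>
      {s : V → Fin d → ℂ | ∀ u v, len s u v = φ (dd d u v)} := by
    intro φ ψ h
    obtain ⟨r, rfl⟩ := real φ
    have : r ∈ {s : V → Fin d → ℂ | ∀ u v, len s u v = ψ (dd d u v)} := by
      beta_reduce at h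
      rw [← h]
      exact fun u v => (ev_dd r u v).symm
    exact hom_ext fun u v => (ev_dd r u v).trans (this u v)
  rw [← hinj.encard_image]
  congr 1
  have key : ∀ r : V → Fin d → ℂ, (∀ u v, G.Adj u v → len r u v = len q u v) ↔
      (ev r).comp (aeval (R := ℚ) (de G)).toRingHom =
        (ev q).comp (aeval (R := ℚ) (de G)).toRingHom := by
    intro r
    constructor
    · intro h
      apply MvPolynomial.ringHom_ext
      · intro a
        simp [eq_ratCast]
      · rintro ⟨e, he⟩
        induction e using Sym2.ind with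
        | _ x y =>
          simp only [AlgHom.toRingHom_eq_coe, RingHom.comp_apply, RingHom.coe_coe, aeval_X]
          exact ((ev_dd r x y).trans (h x y he)).trans (ev_dd q x y).symm
    · intro h u v huv
      have := RingHom.congr_fun h (X ⟨s(u, v), huv⟩)
      simp only [AlgHom.toRingHom_eq_coe, RingHom.comp_apply, RingHom.coe_coe, aeval_X] at this
      exact ((ev_dd r u v).symm.trans this).trans (ev_dd q u v)
  ext K
  constructor
  · rintro ⟨r, h1, rfl⟩
    exact ⟨ev r, (key r).1 h1, by simp only [ev_dd, len]⟩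
  · rintro ⟨φ, h1, rfl⟩
    obtain ⟨r, rfl⟩ := real φ
    exact ⟨r, (key r).2 h1, by simp only [ev_dd, len]⟩

theorem main [Fintype V] (G : SimpleGraph V) (p q : V → Fin d → ℂ)
    (hp : AlgebraicIndependent ℚ (fun x : V × Fin d => p x.1 x.2)) (hG : NoStress G p)
    (hfin : (cls G q).Finite) : (cls G q).encard ≤ (cls G p).encard := by
  classical
  have hfin' : {φ : Bs d V →+* ℂ | φ.comp (aeval (R := ℚ) (de G)).toRingHom =
      (ev q).comp (aeval (R := ℚ) (de G)).toRingHom}.Finite := by
    rw [← Set.encard_lt_top_iff, ← classes]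
    exact hfin.encard_lt_top
  rw [classes, classes]
  let : Algebra (MvPolynomial G.edgeSet ℚ) (Bs d V) := (aeval (R := ℚ) (de G)).toRingHom.toAlgebra
  have : IsScalarTower ℚ (MvPolynomial G.edgeSet ℚ) (Bs d V) :=
    IsScalarTower.of_algebraMap_eq fun a => ((aeval (R := ℚ) (de G)).commutes a).symm
  have : Algebra.FiniteType ℚ (Bs d V) :=
    (Subalgebra.fg_iff_finiteType _).1 (Subalgebra.fg_def.2 ⟨_, Set.finite_range _, rfl⟩)
  have : Algebra.FiniteType (MvPolynomial G.edgeSet ℚ) (Bs d V) :=
    Algebra.FiniteType.of_restrictScalars_finiteType ℚ _ _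
  have hinj : Function.Injective (aeval (R := ℚ) (de (d := d) G)) := by
    have h1 := indep G p hp hG
    have h2 : (aeval (R := ℚ) fun e : G.edgeSet => Dl d e.1) =
        (Bs d V).val.comp (aeval (de G)) := by
      rw [comp_aeval]; rfl
    rw [h2] at h1
    exact Function.Injective.of_comp (f := (Bs d V).val) h1
  exact core (A := MvPolynomial G.edgeSet ℚ) (B := Bs d V) hinj _ _
    ((Function.Injective.comp hp Subtype.val_injective).comp hinj) hfin'

end Pool.Agent.KS6_73.RG
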